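import Pool.Agent.Helper2.XU.Ratio
import Pool.Agent.Helper83.XU.L1

/-!
# XU L2a, L2b, L2c (from `lowerU`)
-/

set_option autoImplicit false

open Polynomial

namespace Pool.Agent.Helper86.XU

open Pool.Agent.Helper84.AA

/-- L2a -/
theorem ratio1U : ∃ G : ℕ, ∀ q : ℕ, 16 ≤ q → ∀ g ≥ G,
    (101 / 100 * rr q) ^ g * ((preSet q g (g - 1)).ncard : ℝ) ≤
      (98 / 100 / rr q) ^ g * (traceSet q g).ncard :=
  ratio1U_of lowerU

/-- L2b -/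
theorem ratio2U : ∃ G : ℕ, ∀ q : ℕ, 16 ≤ q → ∀ g ≥ G,
    (2 * (g : ℝ) + 1) * (4 * √q ^ g + 1) * ((preSet q g (g - 2)).ncard : ℝ) ≤
      (98 / 100 / rr q) ^ g * (traceSet q g).ncard :=
  ratio2U_of lowerU

/-- L2c -/
theorem ratio3U : ∃ G : ℕ, ∀ q : ℕ, 16 ≤ q → ∀ g ≥ G,
    ∑ k ∈ Finset.Icc 1 (g / 2), ((traceSet q k).ncard : ℝ) * (traceSet q (g - k)).ncard ≤
      (98 / 100 / rr q) ^ g * (traceSet q g).ncard :=
  ratio3U_of lowerU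

end Pool.Agent.Helper86.XU
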